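import Pool.Agent.H65.NV.PTargets

/-!
# Upper bound for the number of the points of an ideal in a cube
-/

set_option autoImplicit false

open MeasureTheory Set Filter NumberField NumberField.InfinitePlace
open scoped Real

namespace Pool.Agent.H66.NVP_LCU

open Pool.Agent.H65.CM4 Pool.Agent.H61.NVK Pool.Agent.H89.NV Pool.Agent.H65.NV

variable (k : Type) [Field k] [NumberField k] [IsTotallyReal k]

theorem pf_LCU (hEMB : T_EMB k) (hEMS : T_EMS k) : T_LCU k := by
  classical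
  intro I β B hI hB
  obtain ⟨hcard, hdg, -, -, -, -, -, -, -, -, hId, -⟩ := hEMB
  obtain ⟨hadd, -, -, -, -, hne0, -, hge, -⟩ := hEMS
  have hnm : 1 ≤ nm I := (hId I hI).1
  have hn0 : ((dg k : ℕ) : ℝ) ≠ 0 := by positivity
  set r : ℝ := nm I ^ (1 / (dg k : ℝ)) with hr
  have hr0 : 0 < r := Real.rpow_pos_of_pos (by linarith) _
  have hrn : r ^ dg k = nm I := by
    rw [hr, ← Real.rpow_natCast, ← Real.rpow_mul (by linarith), one_div,
      inv_mul_cancel₀ hn0, Real.rpow_one]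
  have hne : Nonempty (Pl k) := by
    apply Fintype.card_pos_iff.mp; rw [hcard]; exact hdg
  set S : Set (𝓞 k) := {x : 𝓞 k | x ∈ I ∧ ∀ v, |Pool.Agent.H89.NV.em x v - β v| ≤ B} with hS
  let f : 𝓞 k → (Pl k → ℤ) := fun x v => ⌊(Pool.Agent.H89.NV.em x v - β v) / r⌋
  let P : Finset (Pl k → ℤ) := Fintype.piFinset fun _ => Finset.Icc ⌊-B / r⌋ ⌊B / r⌋
  have hmaps : ∀ x ∈ S, f x ∈ (P : Set (Pl k → ℤ)) := by
    intro x hx
    have hx2 := hx.2
    rw [Finset.mem_coe, Fintype.mem_piFinset]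
    intro v
    have h1 := abs_le.mp (hx2 v)
    rw [Finset.mem_Icc]
    constructor
    · exact Int.floor_le_floor (div_le_div_of_nonneg_right h1.1 hr0.le)
    · exact Int.floor_le_floor (div_le_div_of_nonneg_right h1.2 hr0.le)
  have hinj : Set.InjOn f S := by
    intro x hx y hy hxy
    by_contra hxne
    have hz : x - y ∈ I := I.sub_mem hx.1 hy.1
    have hz0 : x - y ≠ 0 := sub_ne_zero.mpr hxne
    have h1 := hge I (x - y) hz hz0
    have h2 : ∀ v, |Pool.Agent.H89.NV.em (x - y) v| < r := by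
      intro v
      have h3 : Pool.Agent.H89.NV.em (x - y) v =
          Pool.Agent.H89.NV.em x v - Pool.Agent.H89.NV.em y v := by
        rw [(hadd x y).2.2.2]; rfl
      have h4 : ⌊(Pool.Agent.H89.NV.em x v - β v) / r⌋ =
          ⌊(Pool.Agent.H89.NV.em y v - β v) / r⌋ := congrFun hxy v
      have h5 := Int.abs_sub_lt_one_of_floor_eq_floor h4
      have h6 : (Pool.Agent.H89.NV.em x v - β v) / r - (Pool.Agent.H89.NV.em y v - β v) / r =
          Pool.Agent.H89.NV.em (x - y) v / r := by rw [h3]; ring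
      rw [h6, abs_div, abs_of_pos hr0, div_lt_one hr0] at h5
      exact h5
    have h6 : ∏ v, |Pool.Agent.H89.NV.em (x - y) v| < ∏ _v : Pl k, r := by
      apply Finset.prod_lt_prod_of_nonempty
      · intro v _; exact abs_pos.mpr (hne0 _ _ hz0)
      · intro v _; exact h2 v
      · exact Finset.univ_nonempty
    rw [Finset.prod_const, Finset.card_univ, hcard, hrn] at h6
    linarith
  have hfin : S.Finite := Set.Finite.of_injOn hmaps hinj P.finite_toSet
  refine ⟨hfin, ?_⟩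
  have hc1 : S.ncard ≤ (P : Set (Pl k → ℤ)).ncard :=
    Set.ncard_le_ncard_of_injOn f hmaps hinj P.finite_toSet
  rw [Set.ncard_coe_finset] at hc1
  have hc2 : P.card = (Finset.Icc ⌊-B / r⌋ ⌊B / r⌋).card ^ dg k := by
    change (Fintype.piFinset fun _ : Pl k => Finset.Icc ⌊-B / r⌋ ⌊B / r⌋).card = _
    rw [Fintype.card_piFinset, Finset.prod_const, Finset.card_univ, hcard]
  have hc3 : ((Finset.Icc ⌊-B / r⌋ ⌊B / r⌋).card : ℝ) ≤ 2 * B / r + 2 := by
    rw [Int.card_Icc]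
    have hBr : 0 ≤ B / r := div_nonneg hB hr0.le
    have h7 : ⌊-B / r⌋ ≤ ⌊B / r⌋ := Int.floor_le_floor (by rw [neg_div]; linarith)
    have h8 : ((⌊B / r⌋ + 1 - ⌊-B / r⌋).toNat : ℤ) = ⌊B / r⌋ + 1 - ⌊-B / r⌋ :=
      Int.toNat_of_nonneg (by omega)
    have h9 : ((⌊B / r⌋ + 1 - ⌊-B / r⌋).toNat : ℝ) = (⌊B / r⌋ : ℝ) + 1 - (⌊-B / r⌋ : ℝ) := by
      exact_mod_cast h8
    rw [h9]
    have h10 := Int.floor_le (B / r)
    have h11 := Int.lt_floor_add_one (-B / r)
    have h12 : -B / r = -(B / r) := neg_div _ _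
    have h13 : 2 * B / r = 2 * (B / r) := by ring
    rw [h13]
    linarith
  calc (S.ncard : ℝ) ≤ (P.card : ℝ) := by exact_mod_cast hc1
    _ = ((Finset.Icc ⌊-B / r⌋ ⌊B / r⌋).card : ℝ) ^ dg k := by rw [hc2]; push_cast; ring
    _ ≤ (2 * B / r + 2) ^ dg k := pow_le_pow_left₀ (Nat.cast_nonneg _) hc3 _

end Pool.Agent.H66.NVP_LCU
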