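import Pool.Agent.H65.NV.PTargets

/-!
# The weight functions with the cut-off function
-/

set_option autoImplicit false

open MeasureTheory Set Filter NumberField NumberField.InfinitePlace
open scoped Real

namespace Pool.Agent.H66.NVP_PSC

open Pool.Agent.H65.CM4 Pool.Agent.H61.NVK Pool.Agent.H89.NV Pool.Agent.H65.NV

variable (k : Type) [Field k] [NumberField k] [IsTotallyReal k]

theorem pf_PSC (hVKF : T_VKF) : T_PSC k := by
  classical
  intro G η hG
  obtain ⟨-, hVc, -, hB⟩ := hVKF k
  obtain ⟨C0, hC0, hV⟩ := hB 0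
  have hη := hG.pos
  have hGc : Continuous G := hG.smooth.continuous
  set K : Set (Pl k → ℝ) := Set.pi univ fun _ : Pl k => Icc η (1 / η) with hK
  have hKc : IsCompact K := isCompact_univ_pi fun _ => isCompact_Icc
  obtain ⟨C1, hC1⟩ := hKc.exists_bound_of_continuousOn hGc.continuousOn
  have hG0 : ∀ u, u ∉ K → G u = 0 := by
    intro u hu
    apply hG.supp
    by_contra hcon
    push Not at hcon
    exact hu (fun v _ => hcon v)
  have hG1 : ∀ u, |G u| ≤ |C1| + 1 := by
    intro u
    by_cases hu : u ∈ K
    · have h1 := hC1 u hu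
      rw [Real.norm_eq_abs] at h1
      have h2 := le_abs_self C1
      linarith
    · rw [hG0 u hu, abs_zero]; positivity
  have hVb : ∀ y : ℝ, 0 < y → |Vk k y| ≤ C0 := by
    intro y hy
    have h1 := (hV y hy).1
    simpa using h1
  refine ⟨(|C1| + 1) * C0, by positivity, ?_⟩
  intro T x hT hx
  have hT0 : (0 : ℝ) < T := by linarith
  have hpos : ∀ d : Pl k → ℝ, (fun v => d v / T) ∈ K → ∀ v, 0 < d v := by
    intro d hd v
    have h1 := (hd v (mem_univ v)).1
    have h2 : 0 < d v / T := lt_of_lt_of_le hη h1
    have h3 : d v = d v / T * T := by field_simp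
    rw [h3]; exact mul_pos h2 hT0
  have hsD : ∀ d : Pl k → ℝ, (∀ v, 0 < d v) → 0 < x / sD d := by
    intro d hd
    apply div_pos hx
    exact Real.sqrt_pos.mpr (Finset.prod_pos fun v _ => hd v)
  have hscale : Continuous (fun d : Pl k → ℝ => (fun v => d v / T)) := by fun_prop
  have hsDc : Continuous (fun d : Pl k → ℝ => sD d) := by
    unfold sD
    exact Real.continuous_sqrt.comp (continuous_finsetProd _ fun v _ => continuous_apply v)
  constructor
  · rw [continuous_iff_continuousAt]
    intro d
    by_cases hd : (fun v => d v / T) ∈ K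
    · have hdp := hpos d hd
      have h1 : ContinuousAt (fun d : Pl k → ℝ => x / sD d) d := by
        apply ContinuousAt.div continuousAt_const hsDc.continuousAt
        exact (Real.sqrt_pos.mpr (Finset.prod_pos fun v _ => hdp v)).ne'
      have h2 : ContinuousAt (Vk k) (x / sD d) :=
        hVc.continuousAt (Ioi_mem_nhds (hsD d hdp))
      have h3 : ContinuousAt (fun d : Pl k → ℝ => Vk k (x / sD d)) d :=
        ContinuousAt.comp (f := fun d : Pl k → ℝ => x / sD d) h2 h1
      exact ((hGc.comp hscale).continuousAt).mul h3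
    · have hopen : IsOpen {d : Pl k → ℝ | (fun v => d v / T) ∉ K} :=
        (hKc.isClosed.preimage hscale).isOpen_compl
      have h4 : (fun d : Pl k → ℝ => G (fun v => d v / T) * Vk k (x / sD d)) =ᶠ[nhds d]
          fun _ => 0 := by
        filter_upwards [hopen.mem_nhds hd] with e he
        rw [hG0 _ he, zero_mul]
      exact continuousAt_const.congr h4.symm
  · intro d
    by_cases hd : (fun v => d v / T) ∈ K
    · rw [abs_mul]
      exact mul_le_mul (hG1 _) (hVb _ (hsD d (hpos d hd))) (abs_nonneg _) (by positivity)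
    · rw [hG0 _ hd, zero_mul, abs_zero]; positivity

end Pool.Agent.H66.NVP_PSC
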