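import Pool.Agent.H65.NV.PTargets

/-!
# The sum of the inverse squares of the norms of the primes
-/

set_option autoImplicit false

open MeasureTheory Set Filter NumberField NumberField.InfinitePlace
open scoped Real

namespace Pool.Agent.H66.NVP_PSQ

open Pool.Agent.H65.CM4 Pool.Agent.H61.NVK Pool.Agent.H89.NV Pool.Agent.H65.NV

variable (k : Type) [Field k] [NumberField k] [IsTotallyReal k]

theorem pf_PSQ (hIDC : T_IDC k) : T_PSQ k := by
  classical
  obtain ⟨hmem, -, C, hC1, hC⟩ := hIDC
  have hfin : ∀ R : ℝ, {P : PrI k | np P ≤ R}.Finite := by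
    intro R
    apply Set.Finite.of_injOn (f := fun P : PrI k => P.1) (t := ((Id k R : Finset _) : Set _))
    · intro P hP
      exact Finset.mem_coe.mpr ((hmem R P.1).mpr ⟨P.2.2, hP⟩)
    · intro P _ Q _ h
      exact Subtype.ext h
    · exact Finset.finite_toSet _
  have hPM : ∀ (R : ℝ) (P : PrI k), P ∈ PM k R ↔ np P ≤ R := by
    intro R P
    unfold PM
    rw [dif_pos (hfin R), Set.Finite.mem_toFinset]; rfl
  have hcard : ∀ (R : ℝ) (s : Finset (PrI k)), 1 ≤ R → (∀ P ∈ s, np P ≤ R) →
      (s.card : ℝ) ≤ C * R := by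
    intro R s hR hs
    have h1 : s.card ≤ (Id k R).card := by
      apply Finset.card_le_card_of_injOn (fun P : PrI k => P.1)
      · intro P hP
        exact Finset.mem_coe.mpr ((hmem R P.1).mpr ⟨P.2.2, hs P hP⟩)
      · intro P _ Q _ h
        exact Subtype.ext h
    calc (s.card : ℝ) ≤ ((Id k R).card : ℝ) := by exact_mod_cast h1
      _ ≤ C * R := (hC R hR).1
  have hN : ∀ P : PrI k, Ideal.absNorm P.1 ≠ 0 := by
    intro P h
    exact P.2.2 (Ideal.absNorm_eq_zero_iff.mp h)
  have hnp : ∀ P : PrI k, np P = (Ideal.absNorm P.1 : ℝ) := fun P => rfl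
  let g : PrI k → ℕ := fun P => Nat.log 2 (Ideal.absNorm P.1)
  have hg1 : ∀ P, (2 : ℝ) ^ g P ≤ np P := by
    intro P
    rw [hnp]
    exact_mod_cast Nat.pow_log_le_self 2 (hN P)
  have hg2 : ∀ P, np P ≤ (2 : ℝ) ^ (g P + 1) := by
    intro P
    rw [hnp]
    exact_mod_cast (Nat.lt_pow_succ_log_self (by norm_num : 1 < 2) (Ideal.absNorm P.1)).le
  have hsum : Summable (fun P : PrI k => (np P ^ 2)⁻¹) := by
    apply summable_of_sum_le (c := 4 * C)
    · intro P; positivity
    · intro s
      have h1 : ∑ P ∈ s, (np P ^ 2)⁻¹ =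
          ∑ j ∈ s.image g, ∑ P ∈ s with g P = j, (np P ^ 2)⁻¹ :=
        (Finset.sum_fiberwise_of_maps_to (fun P hP => Finset.mem_image_of_mem g hP) _).symm
      have h2 : ∀ j ∈ s.image g, ∑ P ∈ s with g P = j, (np P ^ 2)⁻¹ ≤
          2 * C * (1 / 2 : ℝ) ^ j := by
        intro j _
        have h3 : ∑ P ∈ s with g P = j, (np P ^ 2)⁻¹ ≤
            ∑ _P ∈ s with g _P = j, (((2 : ℝ) ^ j) ^ 2)⁻¹ := by
          apply Finset.sum_le_sum
          intro P hP
          have hPj : g P = j := (Finset.mem_filter.mp hP).2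
          have h4 := hg1 P
          rw [hPj] at h4
          exact inv_anti₀ (by positivity) (pow_le_pow_left₀ (by positivity) h4 2)
        rw [Finset.sum_const, nsmul_eq_mul] at h3
        have h5 : (((s.filter fun P => g P = j)).card : ℝ) ≤ C * 2 ^ (j + 1) := by
          apply hcard
          · exact one_le_pow₀ (by norm_num)
          · intro P hP
            have hPj : g P = j := (Finset.mem_filter.mp hP).2
            have h6 := hg2 P
            rw [hPj] at h6
            exact h6
        calc ∑ P ∈ s with g P = j, (np P ^ 2)⁻¹ ≤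
            (((s.filter fun P => g P = j)).card : ℝ) * (((2 : ℝ) ^ j) ^ 2)⁻¹ := h3
          _ ≤ C * 2 ^ (j + 1) * (((2 : ℝ) ^ j) ^ 2)⁻¹ :=
            mul_le_mul_of_nonneg_right h5 (by positivity)
          _ = 2 * C * (1 / 2 : ℝ) ^ j := by
            have h7 : ((2 : ℝ) ^ j) ≠ 0 := by positivity
            rw [one_div, inv_pow]
            field_simp
            ring
      rw [h1]
      calc ∑ j ∈ s.image g, ∑ P ∈ s with g P = j, (np P ^ 2)⁻¹ ≤
          ∑ j ∈ s.image g, 2 * C * (1 / 2 : ℝ) ^ j := Finset.sum_le_sum h2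
        _ ≤ 2 * C * 2 := by
          apply sum_le_hasSum _ _ (hasSum_geometric_two.mul_left (2 * C))
          intro j _; positivity
        _ = 4 * C := by ring
  refine ⟨hsum, hPM, ?_⟩
  intro ε hε
  obtain ⟨s0, hs0⟩ := summable_iff_vanishing_norm.mp hsum ε hε
  refine ⟨∑ P ∈ s0, np P, ?_⟩
  intro R hR s hs
  have hdis : Disjoint s s0 := by
    rw [Finset.disjoint_left]
    intro P hP hP0
    apply hs P hP
    rw [hPM]
    refine le_trans ?_ hR
    exact Finset.single_le_sum (f := fun P : PrI k => np P)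
      (fun Q _ => by rw [hnp]; exact Nat.cast_nonneg _) hP0
  have h1 := hs0 s hdis
  exact le_trans (le_abs_self _) (by rw [← Real.norm_eq_abs]; exact h1.le)

end Pool.Agent.H66.NVP_PSQ
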